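import Pool.Agent.N964.GW.Stm

/-!
# Project GW, part SH: the shift
-/

set_option autoImplicit false

namespace Pool.Agent.N971.GWSH

open Pool.Agent.N964.GW
open Y767.WH (GoodH)

lemma hd_log {f : ℝ → ℂ} {f' : ℂ} {s : ℝ} (hf : HasDerivAt f f' s) (h0 : f s ≠ 0) :
    HasDerivAt (fun s => Real.log ‖f s‖) ((f' / f s).re) s := by
  have h1 : HasDerivAt (fun s => ‖f s‖ ^ 2) (2 * inner ℝ (f s) f') s := hf.norm_sq
  have h2 : ‖f s‖ ^ 2 ≠ 0 := pow_ne_zero _ (norm_ne_zero_iff.2 h0)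
  have h3 := (h1.log h2).const_mul (1 / 2 : ℝ)
  have h4 : (fun s => 1 / 2 * Real.log (‖f s‖ ^ 2)) = fun s => Real.log ‖f s‖ := by
    funext s
    rw [Real.log_pow]
    push_cast
    ring
  rw [h4] at h3
  refine h3.congr_deriv ?_
  rw [Complex.div_re, Complex.inner, ← Complex.normSq_eq_norm_sq]
  simp only [Complex.mul_re, Complex.conj_re, Complex.conj_im]
  field_simp
  ring

section

variable {d A : ℝ} {lc : ℝ → ℝ} {F : ℂ → ℂ} {a : ℕ → ℂ}

lemma norm_ld_le (h : GoodH d A lc F a) {s : ℂ} (h1 : 7 / 4 ≤ s.re) (h2 : 1 ≤ s.im) :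
    ‖deriv F s / F s‖ ≤ A := by
  rw [h.ld s (by linarith) h2, norm_neg]
  refine (tsum_of_norm_bounded h.has.hasSum fun n => ?_).trans h.ha
  rcases Nat.eq_zero_or_pos n with h0 | h0
  · subst h0
    rw [h.ha1 0 (by norm_num), zero_mul, norm_zero, zero_mul]
  · have hn1 : (1 : ℝ) ≤ n := by exact_mod_cast h0
    rw [norm_mul, Complex.norm_natCast_cpow_of_pos h0, Complex.neg_re]
    exact mul_le_mul_of_nonneg_left (Real.rpow_le_rpow_of_exponent_le hn1 (by linarith))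
      (norm_nonneg _)

lemma lower (h : GoodH d A lc F a) (hA : 1 ≤ A) {κ : ℝ} (hκ0 : 0 ≤ κ) (hκ1 : κ < 1 / 2) {t : ℝ}
    (ht : 1 ≤ t) : (A * Real.exp A)⁻¹ ≤ ‖F ((⟨2, t⟩ : ℂ) + (κ : ℂ))‖ := by
  have hA0 : 0 < A := by linarith
  obtain ⟨γ, hγ⟩ : ∃ γ : ℝ → ℂ, γ = fun x : ℝ => ((x : ℝ) : ℂ) + t * Complex.I := ⟨_, rfl⟩
  have hre : ∀ x, (γ x).re = x := fun x => by rw [hγ]; simp
  have him : ∀ x, (γ x).im = t := fun x => by rw [hγ]; simp
  have hder : ∀ x, HasDerivAt γ 1 x := by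
    intro x
    rw [hγ]
    have h1 : HasDerivAt (fun s : ℝ => ((s : ℝ) : ℂ)) 1 x := Complex.ofRealCLM.hasDerivAt
    exact h1.add_const _
  have hne : ∀ x, 2 ≤ x → F (γ x) ≠ 0 := fun x hx =>
    h.nzr _ (by rw [hre]; linarith) (by rw [him]; exact ht)
  have hφ : ∀ x, 2 ≤ x → HasDerivAt (fun x => Real.log ‖F (γ x)‖)
      ((deriv F (γ x) / F (γ x)).re) x := by
    intro x hx
    have h1 : HasDerivAt (fun x => F (γ x)) (deriv F (γ x) * 1) x :=
      (h.an (γ x) (by rw [him]; linarith)).differentiableAt.hasDerivAt.comp x (hder x)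
    rw [mul_one] at h1
    exact hd_log h1 (hne x hx)
  have hb := Convex.norm_image_sub_le_of_norm_hasDerivWithin_le (f := fun x => Real.log ‖F (γ x)‖)
    (f' := fun x => (deriv F (γ x) / F (γ x)).re) (C := A) (s := Set.Icc (2 : ℝ) (2 + κ))
    (x := 2) (y := 2 + κ) (fun x hx => (hφ x hx.1).hasDerivWithinAt)
    (fun x hx => by
      rw [Real.norm_eq_abs]
      exact (Complex.abs_re_le_norm _).trans
        (norm_ld_le h (by rw [hre]; linarith [hx.1]) (by rw [him]; exact ht)))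
    (convex_Icc _ _) ⟨le_refl _, by linarith⟩ ⟨by linarith, le_refl _⟩
  rw [Real.norm_eq_abs, Real.norm_eq_abs, show (2 : ℝ) + κ - 2 = κ by ring, abs_of_nonneg hκ0] at hb
  have h2 := (abs_le.1 hb).1
  have e2 : γ 2 = (⟨2, t⟩ : ℂ) := by
    apply Complex.ext
    · rw [hre]
    · rw [him]
  have e3 : γ (2 + κ) = (⟨2, t⟩ : ℂ) + (κ : ℂ) := by
    apply Complex.ext
    · rw [hre]; simp
    · rw [him]; simp
  have h3 : -Real.log A ≤ Real.log ‖F (γ 2)‖ := by
    rw [← Real.log_inv, e2]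
    exact Real.log_le_log (by positivity) (h.lower t ht)
  have h4 : Real.log (A * Real.exp A)⁻¹ ≤ Real.log ‖F (γ (2 + κ))‖ := by
    rw [Real.log_inv, Real.log_mul hA0.ne' (Real.exp_pos _).ne', Real.log_exp]
    have h5 : A * κ ≤ A := by nlinarith
    linarith
  rw [e3] at h4
  exact (Real.log_le_log_iff (by positivity)
    (norm_pos_iff.2 (by rw [← e3]; exact hne _ (by linarith)))).1 h4

lemma norm_sh_le (h0 : a 0 = 0) {κ : ℝ} (hκ0 : 0 ≤ κ) (n : ℕ) : ‖sh κ a n‖ ≤ ‖a n‖ := by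
  unfold sh
  rcases Nat.eq_zero_or_pos n with h | h
  · subst h
    rw [h0, zero_mul]
  · have hn1 : (1 : ℝ) ≤ n := by exact_mod_cast h
    rw [norm_mul, Complex.norm_natCast_cpow_of_pos h, Complex.neg_re, Complex.ofReal_re]
    have h1 : (n : ℝ) ^ (-κ) ≤ 1 := Real.rpow_le_one_of_one_le_of_nonpos hn1 (by linarith)
    nlinarith [norm_nonneg (a n)]

end

theorem shb : S_shb := by
  intro k A lc F a κ hk hA h hram hκ0 hκ1
  have h0 : a 0 = 0 := h.ha1 0 (by norm_num)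
  have hle := norm_sh_le (a := a) h0 hκ0
  have hexp : 1 ≤ Real.exp A := Real.one_le_exp (by linarith)
  have hAA : A ≤ A * Real.exp A := le_mul_of_one_le_right (by linarith) hexp
  have hb : ∀ n : ℕ, ‖sh κ a n‖ * (n : ℝ) ^ (-(7 / 4) : ℝ) ≤ ‖a n‖ * (n : ℝ) ^ (-(7 / 4) : ℝ) :=
    fun n => mul_le_mul_of_nonneg_right (hle n) (Real.rpow_nonneg (Nat.cast_nonneg n) _)
  have hs : Summable (fun n : ℕ => ‖sh κ a n‖ * (n : ℝ) ^ (-(7 / 4) : ℝ)) :=
    Summable.of_nonneg_of_le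
      (fun n => mul_nonneg (norm_nonneg _) (Real.rpow_nonneg (Nat.cast_nonneg n) _)) hb h.has
  refine ⟨A * Real.exp A, hAA, ?_⟩
  constructor
  · exact hk
  · linarith
  · intro s hs
    have e1 : AnalyticAt ℂ (fun z : ℂ => z + (κ : ℂ)) s := by fun_prop
    exact AnalyticAt.fun_comp (g := F) (f := fun z : ℂ => z + (κ : ℂ)) (x := s)
      (h.an (s + κ) (by simpa using hs)) e1
  · intro t ht
    exact lower h hA hκ0 hκ1 ht
  · intro n hn
    rw [sh, h.ha1 n hn, zero_mul]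
  · exact hs
  · exact ((hs.tsum_le_tsum hb h.has).trans h.ha).trans hAA
  · intro s hs1 hs2
    have e1 : deriv (fun s => F (s + (κ : ℂ))) s = deriv F (s + κ) := deriv_comp_add_const _ _ _
    rw [e1, h.ld (s + κ) (by simp; linarith) (by simpa using hs2)]
    congr 1
    refine tsum_congr fun n => ?_
    rcases Nat.eq_zero_or_pos n with hn | hn
    · subst hn
      rw [sh, h0, zero_mul, zero_mul, zero_mul]
    · have hn0 : (n : ℂ) ≠ 0 := by exact_mod_cast hn.ne'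
      rw [sh, mul_assoc, ← Complex.cpow_add _ _ hn0]
      congr 2
      ring
  · intro n
    exact (hle n).trans (hram n)

end Pool.Agent.N971.GWSH
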